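import Pool.Agent.X196.IA.OutRF

set_option autoImplicit false

/-!
The group `GG Q` is not inner automorphism separable.
-/

namespace Pool.Agent.X196.IA

open MonoidAlgebra GG

/-- the automorphism of the quotient by a characteristic subgroup induced by an automorphism -/
def ind {G : Type} [Group G] (K : Subgroup G) [hK : K.Characteristic] (φ : MulAut G) :
    MulAut (G ⧸ K) :=
  QuotientGroup.congr K K φ (Subgroup.characteristic_iff_map_eq.1 hK φ)

/-- inner automorphism separable -/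
def IAS (G : Type) [Group G] : Prop :=
  ∀ φ : MulAut G, φ ∉ Inn G →
    ∃ (K : Subgroup G) (_ : K.Characteristic), K.FiniteIndex ∧ ind K φ ∉ Inn (G ⧸ K)

section
variable {Q : Type} [Group Q]

theorem ep_fi (a : GG Q) : ep (a.m + (dl a.q - 1)) = 0 := by
  rw [map_add, a.h, ep_dl_sub, add_zero]

theorem ep_fi' (a : GG Q) : ep (a.m - (dl a.q - 1)) = 0 := by
  rw [map_sub, a.h, ep_dl_sub, sub_zero]

/-- the automorphism which is inner on all finite quotients -/
noncomputable def fi : MulAut (GG Q) where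
  toFun a := ⟨a.m + (dl a.q - 1), a.q, ep_fi a⟩
  invFun a := ⟨a.m - (dl a.q - 1), a.q, ep_fi' a⟩
  left_inv a := by
    apply GG.ext
    · show a.m + (dl a.q - 1) - (dl a.q - 1) = a.m
      abel
    · rfl
  right_inv a := by
    apply GG.ext
    · show a.m - (dl a.q - 1) + (dl a.q - 1) = a.m
      abel
    · rfl
  map_mul' a b := by
    apply GG.ext
    · show a.m + dl a.q * b.m + (dl (a.q * b.q) - 1) =
        a.m + (dl a.q - 1) + dl a.q * (b.m + (dl b.q - 1))
      rw [dl_mul]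
      noncomm_ring
    · rfl

theorem dat_fi : Dat (fi : MulAut (GG Q)) (MonoidHom.id Q) 1 1 := by
  intro a
  refine ⟨?_, rfl⟩
  show a.m + (dl a.q - 1) = _
  rw [th_id]
  simp

theorem fi_not_inner (hQ : Hyp Q) : (fi : MulAut (GG Q)) ∉ Inn (GG Q) := by
  rintro ⟨b, hb⟩
  have h1 := dat_conj b
  have h2 : MulAut.conj b = fi := hb
  rw [h2] at h1
  obtain ⟨-, -, h3⟩ := dat_unique hQ dat_fi h1
  have h4 := congrArg (ep : R Q → ZMod 3) h3
  rw [map_one, map_neg, b.h, neg_zero] at h4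
  exact absurd h4 (by decide)

/-- the submodule of the ideal cut out by a subgroup -/
def JJ (K : Subgroup (GG Q)) : AddSubgroup (R Q) where
  carrier := {x | ∃ h : ep x = 0, em x h ∈ K}
  zero_mem' := ⟨map_zero _, by
    have : em (0 : R Q) (map_zero _) = 1 := rfl
    rw [this]; exact K.one_mem⟩
  add_mem' := by
    rintro x y ⟨hx, hx'⟩ ⟨hy, hy'⟩
    refine ⟨by rw [map_add, hx, hy, add_zero], ?_⟩
    rw [em_add x y hx hy]
    exact K.mul_mem hx' hy'
  neg_mem' := by
    rintro x ⟨hx, hx'⟩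
    refine ⟨by rw [map_neg, hx, neg_zero], ?_⟩
    have : em (-x) (by rw [map_neg, hx, neg_zero]) = (em x hx)⁻¹ := by
      apply GG.ext
      · simp [dl_one]
      · simp
    rw [this]
    exact K.inv_mem hx'

theorem JJ_dl (K : Subgroup (GG Q)) [hK : K.Normal] (q : Q) (x : R Q) (hx : x ∈ JJ K) :
    dl q * x ∈ JJ K := by
  obtain ⟨h, h'⟩ := hx
  refine ⟨by rw [_root_.map_mul, h, mul_zero], ?_⟩
  rw [em_conj q x h]
  exact hK.conj_mem _ h' _

theorem JJ_finite (K : Subgroup (GG Q)) [K.Normal] [hf : K.FiniteIndex] :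
    Finite (R Q ⧸ JJ K) := by
  have h1 : Finite (GG Q ⧸ K) := Subgroup.finite_quotient_of_finiteIndex
  let F : R Q ⧸ JJ K → (GG Q ⧸ K) × ZMod 3 := fun a =>
    (QuotientGroup.mk (em (aug a.out) (ep_aug a.out)), ep a.out)
  apply Finite.of_injective F
  intro a b hab
  have h2 : (QuotientGroup.mk (em (aug a.out) (ep_aug a.out)) : GG Q ⧸ K) =
    QuotientGroup.mk (em (aug b.out) (ep_aug b.out)) := congrArg Prod.fst hab
  have h3 : ep a.out = ep b.out := congrArg Prod.snd hab
  rw [QuotientGroup.eq] at h2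
  have h4 : -a.out + b.out ∈ JJ K := by
    refine ⟨by rw [map_add, map_neg, h3, neg_add_cancel], ?_⟩
    have e : em (-a.out + b.out) (by rw [map_add, map_neg, h3, neg_add_cancel]) =
        (em (aug a.out) (ep_aug a.out))⁻¹ * em (aug b.out) (ep_aug b.out) := by
      apply GG.ext
      · simp only [em_m, mul_m, inv_m, inv_q, em_q, inv_one, dl_one, one_mul, aug, h3]
        abel
      · simp
    rw [e]
    exact h2
  have h5 : (QuotientAddGroup.mk a.out : R Q ⧸ JJ K) = QuotientAddGroup.mk b.out :=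
    QuotientAddGroup.eq.2 h4
  have h6 : (QuotientAddGroup.mk a.out : R Q ⧸ JJ K) = a := Quotient.out_eq a
  have h7 : (QuotientAddGroup.mk b.out : R Q ⧸ JJ K) = b := Quotient.out_eq b
  rw [← h6, ← h7, h5]

/-- the action on the finite module -/
noncomputable def al (K : Subgroup (GG Q)) [hK : K.Normal] : Q →* AddMonoid.End (R Q ⧸ JJ K) where
  toFun q := QuotientAddGroup.map (JJ K) (JJ K) (AddMonoidHom.mulLeft (dl q))
    (fun x hx => JJ_dl K q x hx)
  map_one' := by
    refine AddMonoidHom.ext (fun x => ?_)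
    obtain ⟨x, rfl⟩ := QuotientAddGroup.mk_surjective x
    show (QuotientAddGroup.mk (dl (1 : Q) * x) : R Q ⧸ JJ K) = QuotientAddGroup.mk x
    rw [dl_one, one_mul]
  map_mul' p q := by
    refine AddMonoidHom.ext (fun x => ?_)
    obtain ⟨x, rfl⟩ := QuotientAddGroup.mk_surjective x
    show (QuotientAddGroup.mk (dl (p * q) * x) : R Q ⧸ JJ K) =
      QuotientAddGroup.mk (dl p * (dl q * x))
    rw [dl_mul, mul_assoc]

theorem al_mk (K : Subgroup (GG Q)) [hK : K.Normal] (q : Q) (x : R Q) :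
    al K q (QuotientAddGroup.mk x) = QuotientAddGroup.mk (dl q * x) := rfl

/-- the average: an element of augmentation one invariant modulo the submodule -/
theorem exists_inv (hQ : Hyp Q) (K : Subgroup (GG Q)) [hK : K.Normal] [hf : K.FiniteIndex] :
    ∃ z : R Q, ep z = 1 ∧ ∀ q, dl q * z - z ∈ JJ K := by
  classical
  have hfin := JJ_finite K
  have hend : Finite (AddMonoid.End (R Q ⧸ JJ K)) :=
    Finite.of_injective (fun f : AddMonoid.End (R Q ⧸ JJ K) => (f : R Q ⧸ JJ K → R Q ⧸ JJ K))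
      DFunLike.coe_injective
  let E := (al K).toHomUnits.range
  have hE : Finite E := inferInstance
  have hp : IsPGroup 2 E := by
    rintro ⟨_, ⟨q, rfl⟩⟩
    obtain ⟨k, hk⟩ := hQ.tor q
    refine ⟨k, ?_⟩
    apply Subtype.ext
    show ((al K).toHomUnits q) ^ (2 ^ k) = 1
    rw [← map_pow, hk, map_one]
  obtain ⟨n, hn⟩ := hp.exists_card_eq
  have : Fintype E := Fintype.ofFinite E
  -- the augmentation on the quotient
  let epq : R Q ⧸ JJ K →+ ZMod 3 := QuotientAddGroup.lift (JJ K) (ep : R Q →+* ZMod 3).toAddMonoidHom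
    (fun x hx => hx.1)
  have hepq : ∀ x : R Q, epq (QuotientAddGroup.mk x) = ep x := fun x => rfl
  let act : E → (R Q ⧸ JJ K) → (R Q ⧸ JJ K) := fun e x => (e.1 : AddMonoid.End (R Q ⧸ JJ K)) x
  have hact : ∀ (e f : E) (x : R Q ⧸ JJ K), act (e * f) x = act e (act f x) := fun e f x => rfl
  let o : R Q ⧸ JJ K := QuotientAddGroup.mk 1
  let s : R Q ⧸ JJ K := ∑ e : E, act e o
  have hs1 : ∀ f : E, act f s = s := by
    intro f
    show act f (∑ e : E, act e o) = ∑ e : E, act e o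
    have h1 : act f (∑ e : E, act e o) = ∑ e : E, act f (act e o) :=
      map_sum (f.1 : AddMonoid.End (R Q ⧸ JJ K)) _ _
    rw [h1]
    exact Fintype.sum_equiv (Equiv.mulLeft f) _ _ (fun e => (hact f e o).symm)
  have hs2 : epq s = ((2 ^ n : ℕ) : ZMod 3) := by
    show epq (∑ e : E, act e o) = _
    rw [map_sum]
    have h1 : ∀ e : E, epq (act e o) = 1 := by
      rintro ⟨_, ⟨q, rfl⟩⟩
      show epq (al K q (QuotientAddGroup.mk 1)) = 1
      rw [al_mk, hepq, mul_one, ep_dl]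
    rw [Finset.sum_congr rfl (fun e _ => h1 e), Finset.sum_const, Finset.card_univ,
      ← Nat.card_eq_fintype_card, hn, nsmul_eq_mul, mul_one]
  obtain ⟨z, hz⟩ := QuotientAddGroup.mk_surjective ((2 ^ n) • s)
  refine ⟨z, ?_, ?_⟩
  · rw [← hepq, hz, map_nsmul, hs2, nsmul_eq_mul, ← Nat.cast_mul, ← mul_pow]
    have : ((2 * 2 : ℕ) ^ n : ℕ) % 3 = 1 := by
      rw [Nat.pow_mod]
      norm_num
    have h2 : (((2 * 2) ^ n : ℕ) : ZMod 3) = ((1 : ℕ) : ZMod 3) := by
      rw [ZMod.natCast_eq_natCast_iff]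
      exact this
    rw [h2, Nat.cast_one]
  · intro q
    have h1 : (QuotientAddGroup.mk (dl q * z) : R Q ⧸ JJ K) = QuotientAddGroup.mk z := by
      rw [← al_mk, hz, map_nsmul]
      congr 1
      exact hs1 ⟨(al K).toHomUnits q, ⟨q, rfl⟩⟩
    have h2 := QuotientAddGroup.eq.1 h1.symm
    rwa [neg_add_eq_sub] at h2

theorem not_ias (hQ : Hyp Q) : ¬ IAS (GG Q) := by
  intro h
  obtain ⟨K, hc, hf, hK⟩ := h fi (fi_not_inner hQ)
  apply hK
  obtain ⟨z, hz1, hz2⟩ := exists_inv hQ K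
  have hb : ep (-(1 - z)) = 0 := by rw [map_neg, map_sub, map_one, hz1, sub_self, neg_zero]
  refine ⟨QuotientGroup.mk (em (-(1 - z)) hb), ?_⟩
  ext x
  obtain ⟨a, rfl⟩ := QuotientGroup.mk_surjective x
  rw [MulAut.conj_apply]
  show (QuotientGroup.mk (em (-(1 - z)) hb * a * (em (-(1 - z)) hb)⁻¹) : GG Q ⧸ K) =
    QuotientGroup.mk (fi a)
  have hmem := (JJ K).neg_mem (hz2 a.q)
  obtain ⟨h0, h1⟩ := hmem
  have e : em (-(1 - z)) hb * a * (em (-(1 - z)) hb)⁻¹ = em (-(dl a.q * z - z)) h0 * fi a := by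
    apply GG.ext
    · show -(1 - z) + dl (1 : Q) * a.m + dl (1 * a.q) * (-(dl (1 : Q)⁻¹ * (-(1 - z)))) =
        -(dl a.q * z - z) + dl (1 : Q) * (a.m + (dl a.q - 1))
      rw [inv_one, dl_one, one_mul, one_mul, one_mul, one_mul]
      noncomm_ring
    · show 1 * a.q * 1⁻¹ = 1 * a.q
      simp
  rw [e, QuotientGroup.mk_mul, (QuotientGroup.eq_one_iff _).2 h1, one_mul]

end

end Pool.Agent.X196.IA
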