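import Pool.Agent.X196.IA.OutRF

set_option autoImplicit false

/-!
The outer automorphism group of `GG Q` is infinite.
-/

namespace Pool.Agent.X196.IA

open MonoidAlgebra GG

section
variable {Q : Type} [Group Q]

/-- right multiplication by the inverse of a group element -/
noncomputable def rho (r : Q) : MulAut (GG Q) where
  toFun a := ⟨a.m * dl r⁻¹, a.q, by rw [_root_.map_mul, a.h, zero_mul]⟩
  invFun a := ⟨a.m * dl r, a.q, by rw [_root_.map_mul, a.h, zero_mul]⟩
  left_inv a := by
    apply GG.ext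
    · show a.m * dl r⁻¹ * dl r = a.m
      rw [mul_assoc, dl_inv_mul, mul_one]
    · rfl
  right_inv a := by
    apply GG.ext
    · show a.m * dl r * dl r⁻¹ = a.m
      rw [mul_assoc, dl_mul_inv, mul_one]
    · rfl
  map_mul' a b := by
    apply GG.ext
    · show (a.m + dl a.q * b.m) * dl r⁻¹ = a.m * dl r⁻¹ + dl a.q * (b.m * dl r⁻¹)
      rw [add_mul, mul_assoc]
    · rfl

/-- the homomorphism to the automorphism group -/
noncomputable def rhoHom : Q →* MulAut (GG Q) where
  toFun := rho
  map_one' := by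
    ext a : 1
    apply GG.ext
    · show a.m * dl (1 : Q)⁻¹ = a.m
      rw [inv_one, dl_one, mul_one]
    · rfl
  map_mul' r s := by
    ext a : 1
    apply GG.ext
    · show a.m * dl (r * s)⁻¹ = a.m * dl s⁻¹ * dl r⁻¹
      rw [mul_inv_rev, dl_mul, mul_assoc]
    · rfl

theorem dat_rho (r : Q) : Dat (rho r) (MonoidHom.id Q) (dl r⁻¹) 0 := by
  intro a
  refine ⟨?_, rfl⟩
  show a.m * dl r⁻¹ = _
  rw [th_id]
  simp

theorem rho_inner (hQ : Hyp Q) (r : Q) (h : rho r ∈ Inn (GG Q)) : r ∈ Subgroup.center Q := by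
  obtain ⟨b, hb⟩ := h
  have h1 := dat_conj b
  have h2 : MulAut.conj b = rho r := hb
  rw [h2] at h1
  obtain ⟨h3, h4, -⟩ := dat_unique hQ (dat_rho r) h1
  have h5 : r⁻¹ = b.q := dl_inj h4
  rw [← inv_mem_iff, h5, Subgroup.mem_center_iff]
  intro g
  have h6 : g = b.q * g * b.q⁻¹ := DFunLike.congr_fun h3 g
  rw [eq_mul_inv_iff_mul_eq] at h6
  exact h6

theorem out_infinite (hQ : Hyp Q) (hfg : Group.FG Q) : Infinite (Out (GG Q)) := by
  by_contra hcon
  have hfin : Finite (Out (GG Q)) := not_infinite_iff_finite.1 hcon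
  have hinf := hQ.inf
  have h1 : (((QuotientGroup.mk' (Inn (GG Q))).comp (rhoHom : Q →* MulAut (GG Q))).ker).FiniteIndex :=
    Subgroup.finiteIndex_ker _
  have h2 : ((QuotientGroup.mk' (Inn (GG Q))).comp (rhoHom : Q →* MulAut (GG Q))).ker ≤
      Subgroup.center Q := by
    intro r hr
    apply rho_inner hQ
    exact (QuotientGroup.eq_one_iff (rho r)).1 hr
  have h3 : (Subgroup.center Q).FiniteIndex := Subgroup.finiteIndex_of_le h2
  have h4 : Group.FG (Subgroup.center Q) := inferInstance
  have h5 : Finite (Subgroup.center Q) := by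
    let _ : CommGroup (Subgroup.center Q) :=
      { (inferInstance : Group (Subgroup.center Q)) with
        mul_comm := fun a b => Subtype.ext ((Subgroup.mem_center_iff.1 b.2) a.1) }
    refine @CommGroup.finite_of_fg_isMulTorsion (Subgroup.center Q) _ h4 ?_
    intro z
    obtain ⟨k, hk⟩ := hQ.tor z.1
    rw [isOfFinOrder_iff_pow_eq_one]
    exact ⟨2 ^ k, by positivity, Subtype.ext hk⟩
  have h6 := Subgroup.card_mul_index (Subgroup.center Q)
  have h7 : Nat.card Q = 0 := Nat.card_eq_zero_of_infinite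
  rw [h7] at h6
  rcases Nat.mul_eq_zero.1 h6 with h8 | h8
  · exact Nat.card_pos.ne' h8
  · exact h3.index_ne_zero h8

end

end Pool.Agent.X196.IA
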