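import Mathlib

set_option autoImplicit false

/-!
The group `GG Q`: the semidirect product of the augmentation ideal of the group algebra over the
field with three elements with the group `Q`.
-/

namespace Pool.Agent.X196.IA

open MonoidAlgebra

/-- the group algebra over the field with three elements -/
abbrev R (Q : Type) [Group Q] : Type := MonoidAlgebra (ZMod 3) Q

section
variable {Q : Type} [Group Q] {Q' : Type} [Group Q']

/-- group elements in the group algebra -/
noncomputable def dl (q : Q) : R Q := single q 1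

theorem dl_one : dl (1 : Q) = 1 := rfl
theorem dl_mul (p q : Q) : dl (p * q) = dl p * dl q := by simp [dl, single_mul_single]
theorem dl_mul_coeff (q p : Q) (x : R Q) : (dl q * x).coeff p = x.coeff (q⁻¹ * p) := by simp [dl]
theorem dl_inv_mul (q : Q) : dl q⁻¹ * dl q = 1 := by rw [← dl_mul, inv_mul_cancel, dl_one]
theorem dl_mul_inv (q : Q) : dl q * dl q⁻¹ = 1 := by rw [← dl_mul, mul_inv_cancel, dl_one]

theorem dl_inj {p q : Q} (h : dl p = dl q) : p = q := by
  unfold dl at h
  exact (single_left_inj (by decide)).1 h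

/-- augmentation -/
noncomputable def ep : R Q →+* ZMod 3 :=
  ((MonoidAlgebra.lift (ZMod 3) (ZMod 3) Q (1 : Q →* ZMod 3)) : R Q →ₐ[ZMod 3] ZMod 3).toRingHom

theorem ep_single (q : Q) (c : ZMod 3) : ep (single q c) = c := by
  simp [ep]

theorem ep_dl (q : Q) : ep (dl q) = 1 := ep_single q 1

/-- functoriality -/
noncomputable def th (f : Q →* Q') : R Q →+* R Q' := mapDomainRingHom (ZMod 3) f

theorem th_single (f : Q →* Q') (q : Q) (c : ZMod 3) : th f (single q c) = single (f q) c := by
  simp [th]

theorem th_dl (f : Q →* Q') (q : Q) : th f (dl q) = dl (f q) := th_single f q 1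

theorem addHom_ext' {M : Type} [AddCommGroup M] [Module (ZMod 3) M] (f g : R Q →+ M)
    (h : ∀ q, f (dl q) = g (dl q)) : f = g := by
  apply addMonoidHom_ext
  intro q c
  have e : (single q c : R Q) = c • dl q := by simp [dl]
  rw [e, ZMod.map_smul, ZMod.map_smul, h]

theorem ep_th (f : Q →* Q') (x : R Q) : ep (th f x) = ep x := by
  have : ((ep : R Q' →+* ZMod 3).comp (th f)).toAddMonoidHom = (ep : R Q →+* ZMod 3).toAddMonoidHom := by
    apply addHom_ext'
    intro q
    show ep (th f (dl q)) = ep (dl q)
    rw [th_dl, ep_dl, ep_dl]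
  exact DFunLike.congr_fun this x

theorem th_comp {Q'' : Type} [Group Q''] (g : Q' →* Q'') (f : Q →* Q') (x : R Q) :
    th g (th f x) = th (g.comp f) x := by
  have : ((th g).comp (th f)).toAddMonoidHom = (th (g.comp f)).toAddMonoidHom := by
    apply addHom_ext'
    intro q
    show th g (th f (dl q)) = th (g.comp f) (dl q)
    rw [th_dl, th_dl, th_dl]
    rfl
  exact DFunLike.congr_fun this x

theorem th_id (x : R Q) : th (MonoidHom.id Q) x = x := by
  have : (th (MonoidHom.id Q)).toAddMonoidHom = AddMonoidHom.id (R Q) := by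
    apply addHom_ext'
    intro q
    show th (MonoidHom.id Q) (dl q) = dl q
    rw [th_dl]
    rfl
  exact DFunLike.congr_fun this x

/-- an element fixed by infinitely many translations is zero -/
theorem inv_zero {ι : Type} [Infinite ι] (f : ι → Q) (hf : Function.Injective f) (x : R Q)
    (h : ∀ i, dl (f i) * x = x) : x = 0 := by
  by_contra hx
  have h0 : ∃ p, x.coeff p ≠ 0 := by
    by_contra hcon
    push Not at hcon
    apply hx
    ext p
    simp [hcon p]
  obtain ⟨p, hp⟩ := h0
  have h1 : ∀ i, (f i)⁻¹ * p ∈ x.coeff.support := by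
    intro i
    rw [Finsupp.mem_support_iff, ← dl_mul_coeff, h i]
    exact hp
  let g : ι → x.coeff.support := fun i => ⟨(f i)⁻¹ * p, h1 i⟩
  have hg : Function.Injective g := by
    intro i j hij
    apply hf
    have := congrArg Subtype.val hij
    simpa [g] using this
  exact not_injective_infinite_finite g hg

/-- the group -/
@[ext] structure GG (Q : Type) [Group Q] where
  m : R Q
  q : Q
  h : ep m = 0

namespace GG

noncomputable instance : Mul (GG Q) :=
  ⟨fun a b => ⟨a.m + dl a.q * b.m, a.q * b.q, by
    rw [map_add, _root_.map_mul, a.h, b.h]; simp⟩⟩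
noncomputable instance : One (GG Q) := ⟨⟨0, 1, map_zero _⟩⟩
noncomputable instance : Inv (GG Q) :=
  ⟨fun a => ⟨-(dl a.q⁻¹ * a.m), a.q⁻¹, by rw [map_neg, _root_.map_mul, a.h]; simp⟩⟩

@[simp] theorem mul_m (a b : GG Q) : (a * b).m = a.m + dl a.q * b.m := rfl
@[simp] theorem mul_q (a b : GG Q) : (a * b).q = a.q * b.q := rfl
@[simp] theorem one_m : (1 : GG Q).m = 0 := rfl
@[simp] theorem one_q : (1 : GG Q).q = 1 := rfl
@[simp] theorem inv_m (a : GG Q) : (a⁻¹).m = -(dl a.q⁻¹ * a.m) := rfl
@[simp] theorem inv_q (a : GG Q) : (a⁻¹).q = a.q⁻¹ := rfl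

noncomputable instance : Group (GG Q) :=
  Group.ofLeftAxioms
    (by
      intro a b c
      apply GG.ext
      · simp only [mul_m, mul_q, dl_mul]; noncomm_ring
      · simp [mul_assoc])
    (by
      intro a
      apply GG.ext
      · simp [dl_one]
      · simp)
    (by
      intro a
      apply GG.ext
      · simp
      · simp)

/-- projection -/
noncomputable def pr : GG Q →* Q where
  toFun a := a.q
  map_one' := rfl
  map_mul' _ _ := rfl

/-- section -/
noncomputable def sq : Q →* GG Q where
  toFun q := ⟨0, q, map_zero _⟩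
  map_one' := rfl
  map_mul' a b := by
    apply GG.ext
    · simp
    · rfl

@[simp] theorem sq_m (q : Q) : (sq q).m = 0 := rfl
@[simp] theorem sq_q (q : Q) : (sq q).q = q := rfl

/-- the elements of the augmentation ideal -/
noncomputable def em (m : R Q) (h : ep m = 0) : GG Q := ⟨m, 1, h⟩

@[simp] theorem em_m (m : R Q) (h : ep m = 0) : (em m h).m = m := rfl
@[simp] theorem em_q (m : R Q) (h : ep m = 0) : (em m h).q = 1 := rfl

theorem dec (a : GG Q) : a = em a.m a.h * sq a.q := by
  apply GG.ext
  · simp
  · simp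

theorem em_add (m m' : R Q) (h : ep m = 0) (h' : ep m' = 0) (h'' : ep (m + m') = 0) :
    em (m + m') h'' = em m h * em m' h' := by
  apply GG.ext
  · simp [dl_one]
  · simp

theorem em_conj (q : Q) (m : R Q) (h : ep m = 0) (h' : ep (dl q * m) = 0) :
    em (dl q * m) h' = sq q * em m h * (sq q)⁻¹ := by
  apply GG.ext
  · simp
  · simp

end GG

end

end Pool.Agent.X196.IA
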