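import Pool.Agent.X196.IA.Dat

set_option autoImplicit false

/-!
Every derivation of `Γ × Γ` in its group algebra is inner, for `Γ` finitely generated and infinite.
-/

namespace Pool.Agent.X196.IA

open MonoidAlgebra

section
variable {Γ : Type} [Group Γ]

open Classical in
/-- restriction to the elements with second coordinate in a finite set -/
noncomputable def cut (Y : Finset Γ) (x : R (Γ × Γ)) : R (Γ × Γ) :=
  ofCoeff (x.coeff.filter (fun p => p.2 ∈ Y))

theorem cut_coeff (Y : Finset Γ) (x : R (Γ × Γ)) (p : Γ × Γ) (hp : p.2 ∈ Y) :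
    (cut Y x).coeff p = x.coeff p := by
  classical
  unfold cut
  rw [coeff_ofCoeff]
  exact Finsupp.filter_apply_pos (fun p : Γ × Γ => p.2 ∈ Y) _ hp

theorem cut_coeff' (Y : Finset Γ) (x : R (Γ × Γ)) (p : Γ × Γ) (hp : p.2 ∉ Y) :
    (cut Y x).coeff p = 0 := by
  classical
  unfold cut
  rw [coeff_ofCoeff]
  exact Finsupp.filter_apply_neg (fun p : Γ × Γ => p.2 ∈ Y) _ hp

theorem d_one (d : Γ × Γ → R (Γ × Γ)) (hd : ∀ p q, d (p * q) = d p + dl p * d q) : d 1 = 0 := by
  have h := hd 1 1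
  rw [mul_one, dl_one, one_mul] at h
  exact left_eq_add.1 h

theorem d_supp (S : Finset Γ) (hS : Subgroup.closure (S : Set Γ) = ⊤)
    (d : Γ × Γ → R (Γ × Γ)) (hd : ∀ p q, d (p * q) = d p + dl p * d q) :
    ∃ Y : Finset Γ, ∀ x : Γ, ∀ p, p.2 ∉ Y → (d (x, 1)).coeff p = 0 := by
  classical
  refine ⟨S.biUnion (fun s => (d (s, 1)).coeff.support.image Prod.snd), ?_⟩
  intro x
  have hx : x ∈ Subgroup.closure (S : Set Γ) := by rw [hS]; trivial
  induction hx using Subgroup.closure_induction with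
  | mem s hs =>
    intro p hp
    by_contra hne
    apply hp
    rw [Finset.mem_biUnion]
    exact ⟨s, hs, Finset.mem_image.2 ⟨p, Finsupp.mem_support_iff.2 hne, rfl⟩⟩
  | one =>
    intro p _
    have : d (1, 1) = 0 := d_one d hd
    rw [this]
    rfl
  | mul a b _ _ iha ihb =>
    intro p hp
    have e : ((a * b, 1) : Γ × Γ) = (a, 1) * (b, 1) := by simp
    rw [e, hd, coeff_add, Finsupp.add_apply, dl_mul_coeff, iha p hp, ihb _ (by simpa using hp),
      add_zero]
  | inv a _ iha =>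
    intro p hp
    have e : d (a⁻¹, 1) + dl (a⁻¹, 1) * d (a, 1) = 0 := by
      rw [← hd]
      have : ((a⁻¹, 1) : Γ × Γ) * (a, 1) = 1 := by ext <;> simp
      rw [this, d_one d hd]
    have e2 := congrArg (fun x => x.coeff p) e
    simp only [coeff_add, Finsupp.add_apply, dl_mul_coeff] at e2
    rw [iha _ (by simpa using hp), add_zero] at e2
    exact e2

theorem h1_prod [Infinite Γ] (S : Finset Γ) (hS : Subgroup.closure (S : Set Γ) = ⊤)
    (d : Γ × Γ → R (Γ × Γ)) (hd : ∀ p q, d (p * q) = d p + dl p * d q) :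
    ∃ v, ∀ q, d q = dl q * v - v := by
  classical
  obtain ⟨Y, hY⟩ := d_supp S hS d hd
  obtain ⟨h, hh⟩ := Infinite.exists_notMem_finset ((Y ×ˢ Y).image (fun z => z.1 * z.2⁻¹))
  have hh' : ∀ y ∈ Y, ∀ y' ∈ Y, h * y ≠ y' := by
    intro y hy y' hy' e
    apply hh
    rw [Finset.mem_image]
    exact ⟨(y', y), Finset.mem_product.2 ⟨hy', hy⟩, by simp [← e]⟩
  set w : R (Γ × Γ) := -(cut Y (d (1, h))) with hw
  have key : ∀ x : Γ, d (x, 1) = dl (x, 1) * w - w := by
    intro x
    have hc : d (1, h) + dl (1, h) * d (x, 1) = d (x, 1) + dl (x, 1) * d (1, h) := by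
      rw [← hd, ← hd]
      simp
    ext p
    have hc' := congrArg (fun z => z.coeff p) hc
    simp only [coeff_add, Finsupp.add_apply, dl_mul_coeff] at hc'
    rw [hw]
    simp only [coeff_sub, Finsupp.sub_apply, dl_mul_coeff, coeff_neg, Finsupp.neg_apply]
    by_cases hp : p.2 ∈ Y
    · rw [cut_coeff Y _ p hp, cut_coeff Y _ ((x, 1)⁻¹ * p) (by simpa using hp)]
      have h0 : (d (x, 1)).coeff ((1, h)⁻¹ * p) = 0 := by
        apply hY
        intro hmem
        refine hh' _ hmem _ hp ?_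
        simp
      rw [h0, add_zero] at hc'
      rw [hc']
      ring
    · rw [cut_coeff' Y _ p hp, cut_coeff' Y _ ((x, 1)⁻¹ * p) (by simpa using hp), hY x p hp]
      ring
  refine ⟨w, ?_⟩
  set d' : Γ × Γ → R (Γ × Γ) := fun q => d q - (dl q * w - w) with hd'def
  have hd' : ∀ p q, d' (p * q) = d' p + dl p * d' q := by
    intro p q
    simp only [hd'def, hd, dl_mul]
    noncomm_ring
  have k1 : ∀ x : Γ, d' (x, 1) = 0 := by
    intro x
    simp only [hd'def]
    rw [key x, sub_self]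
  have k2 : ∀ y : Γ, d' (1, y) = 0 := by
    intro y
    apply inv_zero (fun x : Γ => ((x, 1) : Γ × Γ)) (fun a b hab => congrArg Prod.fst hab)
    intro x
    have e1 := hd' (x, 1) (1, y)
    have e2 := hd' (1, y) (x, 1)
    rw [k1 x, zero_add] at e1
    rw [k1 x, mul_zero, add_zero] at e2
    rw [← e1, ← e2]
    simp
  intro q
  have e : q = (q.1, 1) * (1, q.2) := by ext <;> simp
  have h0 : d' q = 0 := by
    rw [e, hd', k1, k2]
    simp
  exact sub_eq_zero.1 h0

theorem hyp_prod [Infinite Γ] (S : Finset Γ) (hS : Subgroup.closure (S : Set Γ) = ⊤)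
    (ht : ∀ x : Γ, ∃ k : ℕ, x ^ (2 ^ k) = 1) : Hyp (Γ × Γ) where
  h1 := h1_prod S hS
  inf := inferInstance
  tor q := by
    obtain ⟨k1, h1⟩ := ht q.1
    obtain ⟨k2, h2⟩ := ht q.2
    refine ⟨k1 + k2, ?_⟩
    ext
    · rw [Prod.pow_fst, pow_add, pow_mul, h1, one_pow]; rfl
    · rw [Prod.pow_snd, pow_add, mul_comm, pow_mul, h2, one_pow]; rfl

end

end Pool.Agent.X196.IA
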