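import Pool.Agent.X196.IA.Basic

set_option autoImplicit false

/-!
Every automorphism of `GG Q` is given by a triple `(θ, u, v)`.
-/

namespace Pool.Agent.X196.IA

open MonoidAlgebra GG

/-- the hypotheses on the group used for the classification of automorphisms -/
structure Hyp (Q : Type) [Group Q] : Prop where
  h1 : ∀ d : Q → R Q, (∀ p q, d (p * q) = d p + dl p * d q) → ∃ v, ∀ q, d q = dl q * v - v
  inf : Infinite Q
  tor : ∀ q : Q, ∃ k : ℕ, q ^ (2 ^ k) = 1

section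
variable {Q : Type} [Group Q]

/-- the automorphism `ψ` is given by the triple `(θ, u, v)` -/
def Dat (ψ : MulAut (GG Q)) (θ : Q →* Q) (u v : R Q) : Prop :=
  ∀ a : GG Q, (ψ a).m = th θ a.m * u + (dl (θ a.q) * v - v) ∧ (ψ a).q = θ a.q

theorem three_eq (x : R Q) : x + x + x = 0 := by
  ext p
  simp only [coeff_add, Finsupp.coe_add, Pi.add_apply, coeff_zero, Finsupp.coe_zero, Pi.zero_apply]
  generalize x.coeff p = c
  revert c
  decide

theorem em_cube (m : R Q) (h : ep m = 0) : (em m h) ^ 3 = 1 := by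
  rw [pow_succ, pow_succ, pow_one]
  apply GG.ext
  · simp only [mul_m, mul_q, em_m, em_q, mul_one, dl_one, one_mul, one_m]
    exact three_eq m
  · simp

theorem q_one (hQ : Hyp Q) (ψ : MulAut (GG Q)) (m : R Q) (h : ep m = 0) : (ψ (em m h)).q = 1 := by
  have h3 : ((ψ (em m h)).q) ^ 3 = 1 := by
    have : pr (ψ ((em m h) ^ 3)) = 1 := by rw [em_cube, map_one, map_one]
    rw [map_pow, map_pow] at this
    exact this
  obtain ⟨k, hk⟩ := hQ.tor (ψ (em m h)).q
  have h4 := Nat.dvd_gcd (orderOf_dvd_of_pow_eq_one h3) (orderOf_dvd_of_pow_eq_one hk)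
  have h5 : Nat.gcd 3 (2 ^ k) = 1 := by
    apply Nat.Coprime.pow_right
    decide
  rw [h5, Nat.dvd_one] at h4
  exact orderOf_eq_one_iff.1 h4

/-- the induced homomorphism -/
noncomputable def tt (ψ : MulAut (GG Q)) : Q →* Q := pr.comp (ψ.toMonoidHom.comp sq)

theorem pr_eq (hQ : Hyp Q) (ψ : MulAut (GG Q)) (a : GG Q) : (ψ a).q = tt ψ a.q := by
  have : pr (ψ a) = pr (ψ (em a.m a.h)) * pr (ψ (sq a.q)) := by
    rw [← _root_.map_mul, ← _root_.map_mul, ← dec]
  have h1 : pr (ψ (em a.m a.h)) = 1 := q_one hQ ψ _ _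
  rw [h1, one_mul] at this
  exact this

theorem tt_inv (hQ : Hyp Q) (ψ : MulAut (GG Q)) (q : Q) : tt ψ (tt ψ⁻¹ q) = q := by
  have h1 := pr_eq hQ ψ (ψ⁻¹ (sq q))
  have h2 : ψ (ψ⁻¹ (GG.sq q)) = GG.sq q := by
    rw [← MulAut.mul_apply, mul_inv_cancel, MulAut.one_apply]
  rw [h2] at h1
  exact h1.symm

theorem tt_inv' (hQ : Hyp Q) (ψ : MulAut (GG Q)) (q : Q) : tt ψ⁻¹ (tt ψ q) = q := by
  have := tt_inv hQ ψ⁻¹ q
  rwa [inv_inv] at this

/-- augmentation-zero part -/
noncomputable def aug (x : R Q) : R Q := x - single 1 (ep x)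

theorem ep_aug (x : R Q) : ep (aug x) = 0 := by
  unfold aug
  rw [map_sub, ep_single, sub_self]

theorem aug_add (x y : R Q) : aug (x + y) = aug x + aug y := by
  unfold aug
  rw [map_add, single_add]
  abel

theorem aug_of (x : R Q) (h : ep x = 0) : aug x = x := by
  unfold aug
  rw [h, single_zero, sub_zero]

/-- the restriction to the ideal, extended by augmentation-zero parts -/
noncomputable def beta (hQ : Hyp Q) (ψ : MulAut (GG Q)) : R Q →+ R Q :=
  AddMonoidHom.mk' (fun x => (ψ (em (aug x) (ep_aug x))).m) (by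
    intro x y
    have e : em (aug (x + y)) (ep_aug (x + y)) = em (aug x) (ep_aug x) * em (aug y) (ep_aug y) := by
      apply GG.ext
      · simp [aug_add, dl_one]
      · simp
    rw [e, _root_.map_mul, mul_m, q_one hQ, dl_one, one_mul])

theorem beta_eq (hQ : Hyp Q) (ψ : MulAut (GG Q)) (m : R Q) (h : ep m = 0) :
    beta hQ ψ m = (ψ (em m h)).m := by
  show (ψ (em (aug m) (ep_aug m))).m = _
  congr 2
  apply GG.ext
  · exact aug_of m h
  · rfl

theorem ep_mul_zero (x : R Q) (m : R Q) (h : ep m = 0) : ep (x * m) = 0 := by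
  rw [_root_.map_mul, h, mul_zero]

theorem beta_dl (hQ : Hyp Q) (ψ : MulAut (GG Q)) (p : Q) (m : R Q) (h : ep m = 0) :
    beta hQ ψ (dl p * m) = dl (tt ψ p) * beta hQ ψ m := by
  rw [beta_eq hQ ψ m h, beta_eq hQ ψ (dl p * m) (ep_mul_zero _ m h), em_conj p m h, _root_.map_mul,
    _root_.map_mul, map_inv]
  have h1 : (ψ (sq p)).q = tt ψ p := rfl
  simp only [mul_m, mul_q, q_one hQ, inv_m, mul_one, h1]
  rw [mul_neg, ← mul_assoc, dl_mul_inv, one_mul]
  abel

theorem ep_dl_sub (q : Q) : ep (dl q - 1) = 0 := by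
  rw [map_sub, ep_dl, map_one, sub_self]

theorem dat_exists (hQ : Hyp Q) (ψ : MulAut (GG Q)) :
    ∃ u v, Dat ψ (tt ψ) u v := by
  obtain ⟨u, hu⟩ := hQ.h1 (fun q => beta hQ ψ (dl (tt ψ⁻¹ q) - 1)) (by
    intro p q
    have e : dl (tt ψ⁻¹ (p * q)) - 1 = (dl (tt ψ⁻¹ p) - 1) +
        dl (tt ψ⁻¹ p) * (dl (tt ψ⁻¹ q) - 1) := by
      rw [_root_.map_mul, dl_mul]
      noncomm_ring
    show beta hQ ψ (dl (tt ψ⁻¹ (p * q)) - 1) = _
    rw [e, map_add, beta_dl hQ ψ _ _ (ep_dl_sub _), tt_inv hQ])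
  have hu' : ∀ q, beta hQ ψ (dl q - 1) = dl (tt ψ q) * u - u := by
    intro q
    have := hu (tt ψ q)
    simp only [tt_inv' hQ] at this
    exact this
  obtain ⟨v, hv⟩ := hQ.h1 (fun q => (ψ (sq (tt ψ⁻¹ q))).m) (by
    intro p q
    show (ψ (sq (tt ψ⁻¹ (p * q)))).m = _
    rw [_root_.map_mul, _root_.map_mul, _root_.map_mul, mul_m]
    have h1 : (ψ (sq (tt ψ⁻¹ p))).q = p := tt_inv hQ ψ p
    rw [h1])
  have hv' : ∀ q, (ψ (sq q)).m = dl (tt ψ q) * v - v := by
    intro q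
    have := hv (tt ψ q)
    simp only [tt_inv' hQ] at this
    exact this
  have hlin : ∀ x, beta hQ ψ x = th (tt ψ) (aug x) * u := by
    let g : R Q →+ R Q := AddMonoidHom.mk' (fun x => th (tt ψ) (aug x) * u) (by
      intro x y
      show th (tt ψ) (aug (x + y)) * u = _
      rw [aug_add, map_add, add_mul])
    have : beta hQ ψ = g := by
      apply addHom_ext'
      intro q
      have e1 : aug (dl q) = dl q - 1 := by
        unfold aug
        rw [ep_dl]
        rfl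
      have e2 : beta hQ ψ (dl q) = beta hQ ψ (dl q - 1) := by
        rw [beta_eq hQ ψ _ (ep_dl_sub q)]
        show (ψ (em (aug (dl q)) (ep_aug _))).m = _
        congr 2
        apply GG.ext
        · exact e1
        · rfl
      show beta hQ ψ (dl q) = th (tt ψ) (aug (dl q)) * u
      rw [e2, hu', e1, map_sub, map_one, th_dl, sub_mul, one_mul]
    intro x
    exact DFunLike.congr_fun this x
  refine ⟨u, v, fun a => ⟨?_, pr_eq hQ ψ a⟩⟩
  have h1 : ψ a = ψ (em a.m a.h) * ψ (sq a.q) := by rw [← _root_.map_mul, ← dec]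
  rw [h1, mul_m, q_one hQ, dl_one, one_mul, ← beta_eq hQ, hlin, aug_of _ a.h, hv']

theorem dat_surj {ψ : MulAut (GG Q)} {θ : Q →* Q} {u v : R Q} (h : Dat ψ θ u v) (q : Q) :
    ∃ p, θ p = q := by
  obtain ⟨a, ha⟩ := ψ.surjective (sq q)
  refine ⟨a.q, ?_⟩
  rw [← (h a).2, ha]
  rfl

theorem inv_zero' (hQ : Hyp Q) (x : R Q) (h : ∀ q, dl q * x = x) : x = 0 := by
  have := hQ.inf
  exact inv_zero (fun q : Q => q) (fun _ _ h => h) x h

theorem dat_unique (hQ : Hyp Q) {ψ : MulAut (GG Q)} {θ θ' : Q →* Q} {u v u' v' : R Q}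
    (h : Dat ψ θ u v) (h' : Dat ψ θ' u' v') : θ = θ' ∧ u = u' ∧ v = v' := by
  have h1 : θ = θ' := by
    ext q
    exact ((h (GG.sq q)).2).symm.trans (h' (GG.sq q)).2
  subst h1
  have hv : v = v' := by
    have : v - v' = 0 := by
      apply inv_zero' hQ
      intro q
      obtain ⟨p, rfl⟩ := dat_surj h q
      have e1 := (h (sq p)).1
      have e2 := (h' (sq p)).1
      rw [e1] at e2
      simp only [sq_m, sq_q, map_zero, zero_mul, zero_add] at e2
      rw [mul_sub]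
      have : dl (θ p) * v - dl (θ p) * v' = v - v' := by
        have := sub_eq_sub_iff_sub_eq_sub.1 e2
        exact this
      exact this
    exact sub_eq_zero.1 this
  subst hv
  refine ⟨rfl, ?_, rfl⟩
  have : u - u' = 0 := by
    apply inv_zero' hQ
    intro q
    obtain ⟨p, rfl⟩ := dat_surj h q
    have e1 := (h (em (dl p - 1) (ep_dl_sub p))).1
    have e2 := (h' (em (dl p - 1) (ep_dl_sub p))).1
    rw [e1] at e2
    simp only [em_m, em_q, map_sub, map_one, th_dl, dl_one, one_mul, sub_self, add_zero,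
      sub_mul] at e2
    rw [mul_sub]
    exact sub_eq_sub_iff_sub_eq_sub.1 e2
  exact sub_eq_zero.1 this

theorem dat_mul {ψ₁ ψ₂ : MulAut (GG Q)} {θ₁ θ₂ : Q →* Q} {u₁ v₁ u₂ v₂ : R Q}
    (h₁ : Dat ψ₁ θ₁ u₁ v₁) (h₂ : Dat ψ₂ θ₂ u₂ v₂) :
    Dat (ψ₁ * ψ₂) (θ₁.comp θ₂) (th θ₁ u₂ * u₁) (th θ₁ v₂ * u₁ + v₁) := by
  intro a
  rw [MulAut.mul_apply]
  refine ⟨?_, ?_⟩
  · rw [(h₁ (ψ₂ a)).1, (h₂ a).1, (h₂ a).2]
    simp only [map_add, map_sub, _root_.map_mul, th_dl, th_comp, MonoidHom.comp_apply]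
    noncomm_ring
  · rw [(h₁ (ψ₂ a)).2, (h₂ a).2]
    rfl

theorem dat_one : Dat (1 : MulAut (GG Q)) (MonoidHom.id Q) 1 0 := by
  intro a
  refine ⟨?_, rfl⟩
  rw [th_id]
  simp

/-- inner automorphisms -/
theorem dat_conj (b : GG Q) :
    Dat (MulAut.conj b) (MulAut.conj b.q).toMonoidHom (dl b.q) (-b.m) := by
  intro a
  rw [MulAut.conj_apply]
  refine ⟨?_, ?_⟩
  · simp only [mul_m, mul_q, inv_m]
    have hth : th (MulAut.conj b.q).toMonoidHom a.m = dl b.q * a.m * dl b.q⁻¹ := by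
      let g : R Q →+ R Q := AddMonoidHom.mk' (fun x => dl b.q * x * dl b.q⁻¹) (by
        intro x y
        show dl b.q * (x + y) * dl b.q⁻¹ = _
        rw [mul_add, add_mul])
      have : (th (MulAut.conj b.q).toMonoidHom).toAddMonoidHom = g := by
        apply addHom_ext'
        intro q
        show th (MulAut.conj b.q).toMonoidHom (dl q) = dl b.q * dl q * dl b.q⁻¹
        rw [th_dl, ← dl_mul, ← dl_mul]
        rfl
      exact DFunLike.congr_fun this a.m
    rw [hth]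
    have e : dl ((MulAut.conj b.q).toMonoidHom a.q) = dl b.q * dl a.q * dl b.q⁻¹ := by
      rw [← dl_mul, ← dl_mul]
      rfl
    rw [e, dl_mul, mul_assoc (dl b.q * a.m), dl_inv_mul]
    noncomm_ring
  · simp

end

end Pool.Agent.X196.IA
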