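import Pool.Agent.X196.IA.Basic

set_option autoImplicit false

/-!
Characteristic subgroups of finite index separate finite sets, residual finiteness and finite
generation of `GG Q`.
-/

namespace Pool.Agent.X196.IA

open MonoidAlgebra GG

/-- residually finite -/
def ResFin (G : Type) [Group G] : Prop :=
  ∀ g : G, g ≠ 1 → ∃ (P : Type) (_ : Group P) (_ : Finite P) (f : G →* P), f g ≠ 1

/-- characteristic subgroups of finite index separate finite sets from the identity -/
def Sep (Q : Type) [Group Q] : Prop :=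
  ∀ F : Finset Q, (1 : Q) ∉ F →
    ∃ N : Subgroup Q, N.Characteristic ∧ N.FiniteIndex ∧ ∀ q ∈ F, q ∉ N

section
variable {Q : Type} [Group Q]

theorem sep_of (S : Finset Q) (hS : Subgroup.closure (S : Set Q) = ⊤)
    (hrf : ∀ g : Q, g ≠ 1 → ∃ N : Subgroup Q, N.Normal ∧ N.FiniteIndex ∧ g ∉ N) : Sep Q := by
  intro F hF
  have h1 : ∀ q : F, ∃ N : Subgroup Q, N.Normal ∧ N.FiniteIndex ∧ q.1 ∉ N := by
    intro q
    apply hrf
    intro h
    apply hF
    rw [← h]
    exact q.2
  choose N hN1 hN2 hN3 using h1
  let L : Subgroup Q := ⨅ q, N q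
  have hLn : L.Normal := Subgroup.normal_iInf_normal hN1
  have hLf : L.FiniteIndex := Subgroup.finiteIndex_iInf hN2
  have hPf : Finite (Q ⧸ L) := Subgroup.finite_quotient_of_finiteIndex
  have hHom : Finite (Q →* (Q ⧸ L)) := by
    refine Finite.of_injective (fun f : Q →* (Q ⧸ L) => (fun s : S => f s.1)) ?_
    intro f g hfg
    apply MonoidHom.eq_of_eqOn_dense hS
    intro s hs
    exact congrFun hfg ⟨s, hs⟩
  refine ⟨⨅ f : Q →* (Q ⧸ L), f.ker, ?_, ?_, ?_⟩
  · rw [Subgroup.characteristic_iff_le_comap]
    intro φ x hx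
    rw [Subgroup.mem_comap, Subgroup.mem_iInf]
    intro f
    rw [Subgroup.mem_iInf] at hx
    exact hx (f.comp φ.toMonoidHom)
  · exact Subgroup.finiteIndex_iInf (fun f => Subgroup.finiteIndex_ker f)
  · intro q hq hmem
    rw [Subgroup.mem_iInf] at hmem
    have h2 := hmem (QuotientGroup.mk' L)
    rw [QuotientGroup.ker_mk', Subgroup.mem_iInf] at h2
    exact hN3 ⟨q, hq⟩ (h2 ⟨q, hq⟩)

theorem th_coeff {Q' : Type} [Group Q'] (f : Q →* Q') (x : R Q)
    (hinj : Set.InjOn f (x.coeff.support : Set Q)) (p : Q) (hp : p ∈ x.coeff.support) :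
    (th f x).coeff (f p) = x.coeff p :=
  Finsupp.mapDomain_apply' (x.coeff.support : Set Q) x.coeff (fun _ h => h) hinj hp

/-- separation of the support of an element of the group algebra -/
theorem sep_supp (hs : Sep Q) (x : R Q) : ∃ (N : Subgroup Q) (_ : N.Characteristic),
    N.FiniteIndex ∧ Set.InjOn (QuotientGroup.mk' N) (x.coeff.support : Set Q) := by
  classical
  obtain ⟨N, h1, h2, h3⟩ := hs (x.coeff.support.offDiag.image (fun z => z.1⁻¹ * z.2)) (by
    intro h
    rw [Finset.mem_image] at h
    obtain ⟨z, hz, he⟩ := h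
    rw [Finset.mem_offDiag] at hz
    exact hz.2.2 (inv_mul_eq_one.1 he))
  refine ⟨N, h1, h2, ?_⟩
  intro p hp q hq hpq
  by_contra hne
  refine h3 (p⁻¹ * q) (Finset.mem_image.2 ⟨(p, q), Finset.mem_offDiag.2 ⟨hp, hq, hne⟩, rfl⟩) ?_
  exact QuotientGroup.eq.1 hpq

instance finite_R [Finite Q] : Finite (R Q) := by
  have : Finite (Q →₀ ZMod 3) := Finite.of_injective (fun f : Q →₀ ZMod 3 => (f : Q → ZMod 3))
    DFunLike.coe_injective
  exact Finite.of_injective (fun x : R Q => x.coeff) coeff_injective

/-- the affine action on the group algebra of a quotient -/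
noncomputable def aff (N : Subgroup Q) [N.Normal] : GG Q →* Equiv.Perm (R (Q ⧸ N)) :=
  MonoidHom.toHomPerm
    { toFun := fun a x => dl (QuotientGroup.mk' N a.q) * x + th (QuotientGroup.mk' N) a.m
      map_one' := by
        funext x
        show dl (QuotientGroup.mk' N 1) * x + th (QuotientGroup.mk' N) 0 = x
        rw [map_one, dl_one, one_mul, map_zero, add_zero]
      map_mul' := by
        intro a b
        funext x
        show dl (QuotientGroup.mk' N (a.q * b.q)) * x +
          th (QuotientGroup.mk' N) (a.m + dl a.q * b.m) = dl (QuotientGroup.mk' N a.q) *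
            (dl (QuotientGroup.mk' N b.q) * x + th (QuotientGroup.mk' N) b.m) +
              th (QuotientGroup.mk' N) a.m
        rw [_root_.map_mul, dl_mul, map_add, _root_.map_mul, th_dl]
        noncomm_ring }

theorem resFin_GG (hs : Sep Q) : ResFin (GG Q) := by
  intro a ha
  by_cases hq : a.q = 1
  · have hm : a.m ≠ 0 := by
      intro h
      exact ha (GG.ext h hq)
    obtain ⟨N, hc, hf, hinj⟩ := sep_supp hs a.m
    have hfin : Finite (Q ⧸ N) := Subgroup.finite_quotient_of_finiteIndex
    refine ⟨Equiv.Perm (R (Q ⧸ N)), inferInstance, inferInstance, aff N, ?_⟩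
    intro h
    have h1 : (aff N a) 0 = 0 := by rw [h]; rfl
    have h2 : (aff N a) 0 = dl (QuotientGroup.mk' N a.q) * 0 + th (QuotientGroup.mk' N) a.m := rfl
    rw [h2, mul_zero, zero_add] at h1
    obtain ⟨p, hp⟩ : ∃ p, p ∈ a.m.coeff.support := by
      by_contra hcon
      push Not at hcon
      apply hm
      have : a.m.coeff = 0 := Finsupp.support_eq_empty.1 (Finset.eq_empty_of_forall_notMem hcon)
      exact coeff_eq_zero.1 this
    have h3 := th_coeff (QuotientGroup.mk' N) a.m hinj p hp
    rw [h1] at h3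
    exact (Finsupp.mem_support_iff.1 hp) h3.symm
  · obtain ⟨N, hc, hf, h3⟩ := hs {a.q} (by simpa using fun h => hq h.symm)
    have hfin : Finite (Q ⧸ N) := Subgroup.finite_quotient_of_finiteIndex
    refine ⟨Q ⧸ N, inferInstance, hfin, (QuotientGroup.mk' N).comp pr, ?_⟩
    intro h
    apply h3 a.q (by simp)
    exact (QuotientGroup.eq_one_iff _).1 h

theorem fg_GG (S : Finset Q) (hS : Subgroup.closure (S : Set Q) = ⊤) : Group.FG (GG Q) := by
  classical
  let T : Finset (GG Q) := S.image GG.sq ∪ S.image (fun s => em (dl s - 1)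
    (by rw [map_sub, ep_dl, map_one, sub_self]))
  rw [Group.fg_iff]
  refine ⟨T, ?_, T.finite_toSet⟩
  rw [eq_top_iff]
  intro a _
  set H := Subgroup.closure (T : Set (GG Q)) with hH
  have h1 : ∀ q : Q, GG.sq q ∈ H := by
    intro q
    have hq : q ∈ Subgroup.closure (S : Set Q) := by rw [hS]; trivial
    induction hq using Subgroup.closure_induction with
    | mem s hs =>
      apply Subgroup.subset_closure
      rw [Finset.mem_coe, Finset.mem_union]
      exact Or.inl (Finset.mem_image_of_mem _ hs)
    | one => rw [map_one]; exact H.one_mem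
    | mul x y _ _ hx hy => rw [_root_.map_mul]; exact H.mul_mem hx hy
    | inv x _ hx => rw [map_inv]; exact H.inv_mem hx
  let B : AddSubgroup (R Q) :=
    { carrier := {x | ∃ h : ep x = 0, em x h ∈ H}
      zero_mem' := ⟨map_zero _, by
        have : em (0 : R Q) (map_zero _) = 1 := rfl
        rw [this]; exact H.one_mem⟩
      add_mem' := by
        rintro x y ⟨hx, hx'⟩ ⟨hy, hy'⟩
        refine ⟨by rw [map_add, hx, hy, add_zero], ?_⟩
        rw [em_add x y hx hy]
        exact H.mul_mem hx' hy'
      neg_mem' := by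
        rintro x ⟨hx, hx'⟩
        refine ⟨by rw [map_neg, hx, neg_zero], ?_⟩
        have : em (-x) (by rw [map_neg, hx, neg_zero]) = (em x hx)⁻¹ := by
          apply GG.ext
          · simp [dl_one]
          · simp
        rw [this]
        exact H.inv_mem hx' }
  have hBd : ∀ (q : Q) (x : R Q), x ∈ B → dl q * x ∈ B := by
    rintro q x ⟨hx, hx'⟩
    refine ⟨by rw [_root_.map_mul, hx, mul_zero], ?_⟩
    rw [em_conj q x hx]
    exact H.mul_mem (H.mul_mem (h1 q) hx') (H.inv_mem (h1 q))
  have h2 : ∀ q : Q, dl q - 1 ∈ B := by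
    intro q
    have hq : q ∈ Subgroup.closure (S : Set Q) := by rw [hS]; trivial
    induction hq using Subgroup.closure_induction with
    | mem s hs =>
      refine ⟨by rw [map_sub, ep_dl, map_one, sub_self], ?_⟩
      apply Subgroup.subset_closure
      rw [Finset.mem_coe, Finset.mem_union]
      exact Or.inr (Finset.mem_image.2 ⟨s, hs, rfl⟩)
    | one => rw [dl_one, sub_self]; exact B.zero_mem
    | mul x y _ _ hx hy =>
      have e : dl (x * y) - 1 = dl x * (dl y - 1) + (dl x - 1) := by
        rw [dl_mul]; noncomm_ring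
      rw [e]
      exact B.add_mem (hBd x _ hy) hx
    | inv x _ hx =>
      have e : dl x⁻¹ - 1 = -(dl x⁻¹ * (dl x - 1)) := by
        rw [mul_sub, dl_inv_mul]; noncomm_ring
      rw [e]
      exact B.neg_mem (hBd _ _ hx)
  have h3 : ∀ x : R Q, x - single 1 (ep x) ∈ B := by
    intro x
    refine MonoidAlgebra.induction_on (motive := fun x : R Q => x - single 1 (ep x) ∈ B) x ?_ ?_ ?_
    · intro q
      have e : MonoidAlgebra.of (ZMod 3) Q q = dl q := rfl
      have e2 : (dl q : R Q) - single 1 (ep (dl q)) = dl q - 1 := by rw [ep_dl]; rfl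
      change MonoidAlgebra.of (ZMod 3) Q q - single 1 (ep (MonoidAlgebra.of (ZMod 3) Q q)) ∈ B
      rw [e, e2]
      exact h2 q
    · intro x y hx hy
      have e : x + y - single 1 (ep (x + y)) = (x - single 1 (ep x)) + (y - single 1 (ep y)) := by
        rw [map_add, single_add]
        abel
      change x + y - single 1 (ep (x + y)) ∈ B
      rw [e]
      exact B.add_mem hx hy
    · intro c x hx
      have e : c • x - single 1 (ep (c • x)) = c • (x - single 1 (ep x)) := by
        rw [ZMod.map_smul, smul_sub, smul_single]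
      change c • x - single 1 (ep (c • x)) ∈ B
      rw [e]
      exact ZMod.smul_mem hx c
  have h4 : em a.m a.h ∈ H := by
    have := h3 a.m
    rw [a.h, single_zero, sub_zero] at this
    exact this.2
  rw [dec a]
  exact H.mul_mem h4 (h1 a.q)

end

end Pool.Agent.X196.IA
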