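import Pool.Agent.X196.IA.Dat
import Pool.Agent.X196.IA.Sep

set_option autoImplicit false

/-!
Residual finiteness of the outer automorphism group of `GG Q`.
-/

namespace Pool.Agent.X196.IA

open MonoidAlgebra GG

/-- the inner automorphisms -/
def Inn (G : Type) [Group G] : Subgroup (MulAut G) := (MulAut.conj : G →* MulAut G).range

instance Inn_normal (G : Type) [Group G] : (Inn G).Normal := by
  constructor
  rintro _ ⟨g, rfl⟩ φ
  refine ⟨φ g, ?_⟩
  ext x
  simp only [MulAut.conj_apply, MulAut.mul_apply, _root_.map_mul, map_inv]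
  have : φ (φ⁻¹ x) = x := by rw [← MulAut.mul_apply, mul_inv_cancel, MulAut.one_apply]
  rw [this]

/-- the outer automorphism group -/
abbrev Out (G : Type) [Group G] : Type := MulAut G ⧸ Inn G

theorem out_sep {A : Type} [Group A] (B : Subgroup A) [B.Normal]
    (h : ∀ a, a ∉ B → ∃ (P : Type) (_ : Group P) (_ : Finite P) (f : A →* P), f a ∉ B.map f) :
    ResFin (A ⧸ B) := by
  intro x hx
  obtain ⟨a, rfl⟩ := QuotientGroup.mk_surjective x
  have ha : a ∉ B := fun hmem => hx ((QuotientGroup.eq_one_iff a).2 hmem)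
  obtain ⟨P, _, _, f, hf⟩ := h a ha
  have hker : f.ker.FiniteIndex := Subgroup.finiteIndex_ker f
  have hL : (B ⊔ f.ker).FiniteIndex := Subgroup.finiteIndex_of_le (le_sup_right : f.ker ≤ B ⊔ f.ker)
  have hfin : Finite (A ⧸ (B ⊔ f.ker)) := Subgroup.finite_quotient_of_finiteIndex
  refine ⟨A ⧸ (B ⊔ f.ker), inferInstance, hfin,
    QuotientGroup.map B (B ⊔ f.ker) (MonoidHom.id A) (by
      rw [Subgroup.comap_id]; exact le_sup_left), ?_⟩
  intro h1
  have h2 : (QuotientGroup.mk a : A ⧸ (B ⊔ f.ker)) = 1 := h1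
  rw [QuotientGroup.eq_one_iff, ← Subgroup.comap_map_eq] at h2
  exact hf h2

/-- descent of an action to a quotient -/
def desc {A X Y : Type} [Group A] (F : A → X → X) (h1 : ∀ x, F 1 x = x)
    (hm : ∀ a b x, F (a * b) x = F a (F b x)) (p : X → Y)
    (hp : ∀ a x y, p x = p y → p (F a x) = p (F a y)) :
    A →* Equiv.Perm (Quotient (Setoid.ker p)) :=
  MonoidHom.toHomPerm
    { toFun := fun a => Quotient.map (F a) (fun x y hxy => hp a x y hxy)
      map_one' := by
        funext z
        refine Quotient.inductionOn z ?_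
        intro x
        exact congrArg (Quotient.mk _) (h1 x)
      map_mul' := by
        intro a b
        funext z
        refine Quotient.inductionOn z ?_
        intro x
        exact congrArg (Quotient.mk _) (hm a b x) }

theorem desc_mk {A X Y : Type} [Group A] (F : A → X → X) (h1 : ∀ x, F 1 x = x)
    (hm : ∀ a b x, F (a * b) x = F a (F b x)) (p : X → Y)
    (hp : ∀ a x y, p x = p y → p (F a x) = p (F a y)) (a : A) (x : X) :
    desc F h1 hm p hp a (Quotient.mk _ x) = Quotient.mk _ (F a x) := rfl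

section
variable {Q : Type} [Group Q]

/-- the affine action of the automorphism group -/
noncomputable def FF (hQ : Hyp Q) (ψ : MulAut (GG Q)) (x : R Q) : R Q :=
  th (tt ψ) x * (dat_exists hQ ψ).choose + (dat_exists hQ ψ).choose_spec.choose

theorem FF_eq (hQ : Hyp Q) {ψ : MulAut (GG Q)} {θ : Q →* Q} {u v : R Q} (h : Dat ψ θ u v)
    (x : R Q) : FF hQ ψ x = th θ x * u + v := by
  obtain ⟨h1, h2, h3⟩ := dat_unique hQ (dat_exists hQ ψ).choose_spec.choose_spec h
  unfold FF
  rw [h3, h2, h1]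

theorem FF_one (hQ : Hyp Q) (x : R Q) : FF hQ 1 x = x := by
  rw [FF_eq hQ dat_one, th_id, mul_one, add_zero]

theorem FF_mul (hQ : Hyp Q) (a b : MulAut (GG Q)) (x : R Q) :
    FF hQ (a * b) x = FF hQ a (FF hQ b x) := by
  obtain ⟨u, v, h⟩ := dat_exists hQ a
  obtain ⟨u', v', h'⟩ := dat_exists hQ b
  rw [FF_eq hQ (dat_mul h h'), FF_eq hQ h, FF_eq hQ h']
  simp only [map_add, _root_.map_mul, th_comp]
  noncomm_ring

theorem tt_map_le (hQ : Hyp Q) (N : Subgroup Q) [hN : N.Characteristic] (ψ : MulAut (GG Q))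
    (q : Q) (hq : q ∈ N) : tt ψ q ∈ N := by
  let e : Q ≃* Q := MulEquiv.mk' ⟨tt ψ, tt ψ⁻¹, tt_inv' hQ ψ, tt_inv hQ ψ⟩ (_root_.map_mul (tt ψ))
  have := (Subgroup.characteristic_iff_le_comap.1 hN) e hq
  exact this

theorem FF_desc (hQ : Hyp Q) (N : Subgroup Q) [hN : N.Characteristic] (ψ : MulAut (GG Q))
    (x y : R Q) (h : th (QuotientGroup.mk' N) x = th (QuotientGroup.mk' N) y) :
    th (QuotientGroup.mk' N) (FF hQ ψ x) = th (QuotientGroup.mk' N) (FF hQ ψ y) := by
  obtain ⟨u, v, hd⟩ := dat_exists hQ ψ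
  rw [FF_eq hQ hd, FF_eq hQ hd]
  simp only [map_add, _root_.map_mul]
  have e : ∀ z : R Q, th (QuotientGroup.mk' N) (th (tt ψ) z) =
      th (QuotientGroup.map N N (tt ψ) (fun q hq => tt_map_le hQ N ψ q hq))
        (th (QuotientGroup.mk' N) z) := by
    intro z
    rw [th_comp, th_comp]
    rfl
  rw [e x, e y, h]

theorem dat_ext {ψ ψ' : MulAut (GG Q)} {θ : Q →* Q} {u v : R Q} (h : Dat ψ θ u v)
    (h' : Dat ψ' θ u v) : ψ = ψ' := by
  ext a : 1
  apply GG.ext
  · rw [(h a).1, (h' a).1]
  · rw [(h a).2, (h' a).2]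

/-- the information obtained from one characteristic subgroup -/
theorem step (hQ : Hyp Q) (N : Subgroup Q) [hN : N.Characteristic] [hf : N.FiniteIndex]
    (ψ : MulAut (GG Q)) {θ : Q →* Q} {u v : R Q} (h : Dat ψ θ u v)
    (hψ : ∀ (P : Type) (_ : Group P) (_ : Finite P) (f : MulAut (GG Q) →* P),
      f ψ ∈ (Inn (GG Q)).map f) :
    ep v = 0 ∧ ∃ r : Q, th (QuotientGroup.mk' N) u = dl (QuotientGroup.mk' N r) ∧
      ∀ q, QuotientGroup.mk' N (θ q * r) = QuotientGroup.mk' N (r * q) := by
  have hfin : Finite (Q ⧸ N) := Subgroup.finite_quotient_of_finiteIndex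
  have hfin2 : Finite (Quotient (Setoid.ker (th (QuotientGroup.mk' N) : R Q → R (Q ⧸ N)))) :=
    Finite.of_injective _ (Setoid.kerLift_injective _)
  obtain ⟨_, ⟨b, rfl⟩, hb⟩ := hψ _ inferInstance inferInstance
    (desc (FF hQ) (FF_one hQ) (FF_mul hQ) (th (QuotientGroup.mk' N)) (FF_desc hQ N))
  have key : ∀ x : R Q, th (QuotientGroup.mk' N) (th θ x * u + v) =
      th (QuotientGroup.mk' N) (th (MulAut.conj b.q).toMonoidHom x * dl b.q + (-b.m)) := by
    intro x
    have h1 := congrArg (fun e : Equiv.Perm _ => e (Quotient.mk _ x)) hb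
    simp only [desc_mk] at h1
    have h2 := Quotient.exact h1
    rw [← FF_eq hQ h, ← FF_eq hQ (dat_conj b)]
    exact h2.symm
  have k0 := key 0
  simp only [map_zero, zero_mul, zero_add] at k0
  refine ⟨?_, b.q, ?_⟩
  · have := congrArg (ep : R (Q ⧸ N) → ZMod 3) k0
    rw [ep_th, ep_th, map_neg, b.h, neg_zero] at this
    exact this
  · have k1 : ∀ x : R Q, th (QuotientGroup.mk' N) (th θ x * u) =
        th (QuotientGroup.mk' N) (th (MulAut.conj b.q).toMonoidHom x * dl b.q) := by
      intro x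
      have := key x
      rw [map_add, map_add, k0] at this
      exact add_right_cancel this
    have k2 : th (QuotientGroup.mk' N) u = dl (QuotientGroup.mk' N b.q) := by
      have := k1 1
      rw [map_one, map_one, one_mul, one_mul, th_dl] at this
      exact this
    refine ⟨k2, ?_⟩
    intro q
    have := k1 (dl q)
    rw [th_dl, th_dl, _root_.map_mul, _root_.map_mul, th_dl, k2, th_dl, th_dl, ← dl_mul,
      ← dl_mul] at this
    have h3 := dl_inj this
    rw [_root_.map_mul, h3, ← _root_.map_mul]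
    congr 1
    show b.q * q * b.q⁻¹ * b.q = b.q * q
    group

theorem out_resFin (hQ : Hyp Q) (hs : Sep Q) : ResFin (Out (GG Q)) := by
  apply out_sep
  intro ψ hψ
  by_contra hcon
  push Not at hcon
  apply hψ
  obtain ⟨u, v, hd⟩ := dat_exists hQ ψ
  -- the unit is a group element
  obtain ⟨N, hc, hf, hinj⟩ := sep_supp hs u
  obtain ⟨hv, r, hu, -⟩ := step hQ N ψ hd hcon
  have hs1 : ∀ p ∈ u.coeff.support, QuotientGroup.mk' N p = QuotientGroup.mk' N r ∧
      u.coeff p = 1 := by
    intro p hp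
    have h1 := th_coeff (QuotientGroup.mk' N) u hinj p hp
    rw [hu] at h1
    have hne := Finsupp.mem_support_iff.1 hp
    by_cases hpr : QuotientGroup.mk' N p = QuotientGroup.mk' N r
    · refine ⟨hpr, ?_⟩
      rw [← h1, hpr]
      simp [dl]
    · exfalso
      apply hne
      rw [← h1]
      unfold dl
      rw [coeff_single, Finsupp.single_eq_of_ne hpr]
  have hne : u.coeff.support.Nonempty := by
    rw [Finset.nonempty_iff_ne_empty]
    intro he
    have hu0 : u = 0 := coeff_eq_zero.1 (Finsupp.support_eq_empty.1 he)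
    rw [hu0, map_zero] at hu
    have := congrArg (ep : R (Q ⧸ N) → ZMod 3) hu
    rw [map_zero, ep_dl] at this
    exact absurd this (by decide)
  obtain ⟨s, hsu⟩ := hne
  have hus : u = dl s := by
    ext p
    by_cases hp : p ∈ u.coeff.support
    · have : p = s := hinj hp hsu ((hs1 p hp).1.trans (hs1 s hsu).1.symm)
      rw [this, (hs1 s hsu).2]
      simp [dl]
    · have hps : p ≠ s := by
        rintro rfl
        exact hp hsu
      rw [Finsupp.notMem_support_iff.1 hp]
      unfold dl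
      rw [coeff_single, Finsupp.single_eq_of_ne hps]
  -- the automorphism of the group is the conjugation
  have hθ : ∀ q, tt ψ q * s = s * q := by
    intro q
    by_contra hne
    obtain ⟨N', hc', hf', h3⟩ := hs {(s * q)⁻¹ * (tt ψ q * s)} (by
      rw [Finset.mem_singleton]
      intro h
      exact hne (inv_mul_eq_one.1 h.symm).symm)
    obtain ⟨-, r', hu', hq'⟩ := step hQ N' ψ hd hcon
    rw [hus, th_dl] at hu'
    have h4 := dl_inj hu'
    have h5 := hq' q
    rw [_root_.map_mul, _root_.map_mul, ← h4, ← _root_.map_mul, ← _root_.map_mul] at h5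
    apply h3 _ (Finset.mem_singleton_self _)
    exact QuotientGroup.eq.1 h5.symm
  refine ⟨⟨-v, s, by rw [map_neg, hv, neg_zero]⟩, ?_⟩
  have hdc := dat_conj (⟨-v, s, by rw [map_neg, hv, neg_zero]⟩ : GG Q)
  apply dat_ext hdc
  have e1 : tt ψ = (MulAut.conj s).toMonoidHom := by
    ext q
    show tt ψ q = s * q * s⁻¹
    rw [← hθ q]
    group
  have e2 : v = -(-v) := (neg_neg v).symm
  show Dat ψ (MulAut.conj s).toMonoidHom (dl s) (-(-v))
  rw [← e1, ← hus, ← e2]
  exact hd

end

end Pool.Agent.X196.IA
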